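import Pool.Agent.W394.BQN.Stm2

/-!
Task BQN2-DVR/2 (helper394): local principal ideal domains and a monic polynomial with Dedekind
quotient ring.
-/

set_option autoImplicit false

open Polynomial

noncomputable section

namespace Pool.Agent.W930.BQN

open Pool.Agent.W394.BQN BQ

theorem fin_max (V W : Type) [CommRing V] [IsLocalRing V] [CommRing W] [Algebra V W]
    [Module.Finite V W] : {I : Ideal W | I.IsMaximal}.Finite := by
  refine (Algebra.QuasiFinite.finite_primesOver (S := W) (IsLocalRing.maximalIdeal V)).subset ?_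
  intro I hI
  have hI' : I.IsMaximal := hI
  refine ⟨hI'.isPrime, ⟨?_⟩⟩
  have h := Ideal.isMaximal_comap_of_isIntegral_of_isMaximal (R := V) I
  exact (IsLocalRing.eq_maximalIdeal h).symm

theorem fin_spec (V W : Type) [CommRing V] [IsLocalRing V] [CommRing W] [Algebra V W]
    [Module.Finite V W] : Finite (MaximalSpectrum W) := by
  have h := (fin_max V W).to_subtype
  exact Finite.of_injective (fun m : MaximalSpectrum W => (⟨m.asIdeal, m.isMaximal⟩ :
    {I : Ideal W | I.IsMaximal})) (fun m m' h => by
      ext1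
      exact congrArg Subtype.val h)

theorem core (V : Type) [CommRing V] [IsLocalRing V] (u : V[X]) (hu : u.Monic)
    (hD : IsDedekindDomain (V[X] ⧸ Ideal.span {u})) :
    IsPrincipalIdealRing (V[X] ⧸ Ideal.span {u}) ∧
      Finite (MaximalSpectrum (V[X] ⧸ Ideal.span {u})) ∧
      (algebraMap V (V[X] ⧸ Ideal.span {u})).Finite := by
  have hf : Module.Finite V (V[X] ⧸ Ideal.span {u}) := hu.finite_quotient
  exact ⟨IsPrincipalIdealRing.of_finite_maximals (fin_max V _), fin_spec V _,
    RingHom.finite_algebraMap.2 hf⟩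

/-- the task -/
theorem t_DVR (h1 : S_SEM) (h2 : S_TOW) : S_DVR := by
  intro V _ _ _ _ u hu hD n
  obtain ⟨hP, hM, hF⟩ := core V u hu hD
  have hdom : IsDomain (V[X] ⧸ Ideal.span {u}) := inferInstance
  exact h2 V u hu.ne_zero (V[X] ⧸ Ideal.span {u}) (h1 _) (algebraMap V _) hF
    (Ideal.Quotient.mk _) Ideal.Quotient.mk_surjective
    (fun c => by rw [Ideal.Quotient.eq_zero_iff_mem, Ideal.mem_span_singleton])
    (fun v => rfl) n

end Pool.Agent.W930.BQN
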